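import Pool.Agent.Lib.MP_be1941_al.Defs

/-!
# MP_be1941_al, block RB (REP-B): from `IsSplit` to `IsCore` and `SpecREP`

Paper: /team-store/MP_be1941_al_RHO2.md, (2c) and (2d).

Files: `RB/XXX.lean`, `import Pool.Agent.Lib.MP_be1941_al.RB.SpecB`, namespace
`Pool.Agent.Lib.MPbe1941.RB`, `theorem specXXX (hYYY : SpecYYY) .. : SpecXXX`, own lemmas in
namespace `Pool.Agent.Lib.MPbe1941.RB.XXXM`.
-/

set_option autoImplicit false

namespace Pool.Agent.Lib.MPbe1941.RB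

open Pool.Agent.Lib.MPbe1941

/-! ## 0. Definitions -/

/-- The commutator. -/
def cm {G : Type} [Group G] (x y : G) : G := x * y * x⁻¹ * y⁻¹

/-- `f` is a linear character on the subgroup `S` (its values outside `S` are irrelevant). -/
structure IsChar {G : Type} [Group G] (S : Subgroup G) (f : G → ℂ) : Prop where
  one : f 1 = 1
  mul : ∀ x ∈ S, ∀ y ∈ S, f (x * y) = f x * f y

/-- The family `U, P i`. -/
def QQ {G ι : Type} [Group G] (P : ι → Subgroup G) (U : Subgroup G) : Option ι → Subgroup G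
  | none => U
  | some i => P i

/-- The subgroup generated by the commutators and the `p`-th powers. -/
def PhiG {G : Type} [Group G] (P : Subgroup G) (p : ℕ) : Subgroup G :=
  ⁅P, P⁆ ⊔ Subgroup.closure ((fun x => x ^ p) '' (P : Set G))

/-- The family `1, Φ(P i)`. -/
def PP {G ι : Type} [Group G] (pr : ι → ℕ) (P : ι → Subgroup G) : Option ι → Subgroup G
  | none => ⊥
  | some i => PhiG (P i) (pr i)

/-- The centre of the subgroup `P`, as a subgroup of `G`. -/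
def Zc {G : Type} [Group G] (P : Subgroup G) : Subgroup G :=
  P ⊓ Subgroup.centralizer (P : Set G)

/-- The (additive) image of a subgroup. -/
def img {G W : Type} [Group G] [AddCommGroup W] (cl : G → W) (S : Subgroup G) : AddSubgroup W :=
  AddSubgroup.closure (cl '' (S : Set G))

/-- Coordinates of `F`, the internal direct product of the normal subgroups `Q o`. -/
structure IsCoord {G ι' : Type} [Group G] (F : Subgroup G) (Q : ι' → Subgroup G)
    (c : ι' → G → G) : Prop where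
  le : ∀ o, Q o ≤ F
  mem : ∀ o, ∀ f ∈ F, c o f ∈ Q o
  mul : ∀ o, ∀ f ∈ F, ∀ g ∈ F, c o (f * g) = c o f * c o g
  self : ∀ o, ∀ f ∈ Q o, c o f = f
  off : ∀ o o', o ≠ o' → ∀ f ∈ Q o', c o f = 1
  conj : ∀ o, ∀ g : G, ∀ f ∈ F, c o (g * f * g⁻¹) = g * c o f * g⁻¹
  ext : ∀ f ∈ F, (∀ o, c o f = 1) → f = 1
  lift : ∀ x : ι' → G, (∀ o, x o ∈ Q o) → ∃ f ∈ F, ∀ o, c o f = x o

/-- The module `W`, the direct sum of the groups `Q o / Ph o`, with the class maps
`cl o : Q o → W` (image = the `o`-th summand) and representatives: `rp o w ∈ Q o` is a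
representative of the `o`-th component of `w`. -/
structure IsMod {G ι' : Type} [Group G] (Q Ph : ι' → Subgroup G) (H : Subgroup G)
    (W : Type) [AddCommGroup W] [DistribMulAction H W] (cl : ι' → G → W) (rp : ι' → W → G) :
    Prop where
  fin : Finite W
  mul : ∀ o, ∀ x ∈ Q o, ∀ y ∈ Q o, cl o (x * y) = cl o x + cl o y
  act : ∀ o, ∀ x ∈ Q o, ∀ h : H, cl o ((h : G) * x * (h : G)⁻¹) = h • cl o x
  ker : ∀ o, ∀ x ∈ Q o, (cl o x = 0 ↔ x ∈ Ph o)
  rmem : ∀ o w, rp o w ∈ Q o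
  rself : ∀ o, ∀ x ∈ Q o, cl o (rp o (cl o x)) = cl o x
  roff : ∀ o o', o ≠ o' → ∀ x ∈ Q o', cl o (rp o (cl o' x)) = 0
  radd : ∀ o w w', cl o (rp o (w + w')) = cl o (rp o w) + cl o (rp o w')
  ract : ∀ o (h : H) w, cl o (rp o (h • w)) = h • cl o (rp o w)
  ext : ∀ w, (∀ o, cl o (rp o w) = 0) → w = 0

/-- The dual `Z` of the commutative normal subgroup `D`, with evaluation `ev`. -/
structure IsDual {G : Type} [Group G] (D H : Subgroup G) (Z : Type) [AddCommGroup Z]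
    [DistribMulAction H Z] (ev : Z → G → ℂ) : Prop where
  fin : Finite Z
  chr : ∀ μ, IsChar D (ev μ)
  add : ∀ μ ν, ∀ x ∈ D, ev (μ + ν) x = ev μ x * ev ν x
  act : ∀ μ (h : H), ∀ x ∈ D, ev (h • μ) ((h : G) * x * (h : G)⁻¹) = ev μ x
  ext : ∀ μ ν, (∀ x ∈ D, ev μ x = ev ν x) → μ = ν
  surj : ∀ f : G → ℂ, IsChar D f → ∃ μ, ∀ x ∈ D, ev μ x = f x
  sep : ∀ x ∈ D, (∀ μ, ev μ x = 1) → x = 1

/-- The whole setup: `IsSplit`, the module `W`, the duals `Z i`, and the invariant complements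
`M i` of the image of the centre of `P i` in the image of `P i`. -/
structure Setup {G ι : Type} [Group G] (pr : ι → ℕ) (P : ι → Subgroup G) (U H : Subgroup G)
    (W : Type) [AddCommGroup W] [DistribMulAction H W] (cl : Option ι → G → W)
    (rp : Option ι → W → G) (Z : ι → Type) [∀ i, AddCommGroup (Z i)]
    [∀ i, DistribMulAction H (Z i)] (ev : ∀ i, Z i → G → ℂ) (M : ι → AddSubgroup W) : Prop where
  split : IsSplit pr P U H
  mod : IsMod (QQ P U) (PP pr P) H W cl rp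
  dual : ∀ i, IsDual ⁅P i, P i⁆ H (Z i) (ev i)
  Mle : ∀ i, M i ≤ img (cl (some i)) (P i)
  Minv : ∀ i (h : H), ∀ x ∈ M i, h • x ∈ M i
  Mdis : ∀ i, M i ⊓ img (cl (some i)) (Zc (P i)) = ⊥
  Msup : ∀ i, M i ⊔ img (cl (some i)) (Zc (P i)) = img (cl (some i)) (P i)

/-- The components of `W`. -/
def cmpB {G ι W : Type} [Group G] [AddCommGroup W] (P : ι → Subgroup G) (U : Subgroup G)
    (cl : Option ι → G → W) (M : ι → AddSubgroup W) : ι ⊕ Option ι → AddSubgroup W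
  | Sum.inl i => M i
  | Sum.inr none => img (cl none) U
  | Sum.inr (some i) => img (cl (some i)) (Zc (P i))

/-- The alternating forms `B i μ x y = μ [x, y]`. -/
def BB {G ι W : Type} [Group G] [AddCommGroup W] {Z : ι → Type} (rp : Option ι → W → G)
    (ev : ∀ i, Z i → G → ℂ) : ∀ i, Z i → W → W → ℂ :=
  fun i μ x y => ev i μ (cm (rp (some i) x) (rp (some i) y))

/-- A fully ramified pair `(K, κ)` in `F`, `G = F H` (interface with block RP of helper5). -/
structure IsPair {G : Type} [Group G] (F H K : Subgroup G) (kap : G → ℂ) : Prop where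
  Fn : F.Normal
  sup : F ⊔ H = ⊤
  inf : F ⊓ H = ⊥
  KF : K ≤ F
  Kn : ∀ y ∈ F, ∀ x ∈ K, y * x * y⁻¹ ∈ K
  FK : ∀ x ∈ F, ∀ y ∈ F, x * y * x⁻¹ * y⁻¹ ∈ K
  one : kap 1 = 1
  mul : ∀ x ∈ K, ∀ y ∈ K, kap (x * y) = kap x * kap y
  inv : ∀ x ∈ K, ∀ y ∈ F, kap (y * x * y⁻¹) = kap x
  ram : ∀ x ∈ F, x ∉ K → ∃ y ∈ F, kap (x * y * x⁻¹ * y⁻¹) ≠ 1
  cop : Nat.Coprime (K.relIndex F) (Nat.card H)

/-- `h` fixes the pair `(K, κ)`. -/
def PFix {G : Type} [Group G] (K : Subgroup G) (kap : G → ℂ) (h : G) : Prop :=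
  ∀ x ∈ K, h * x * h⁻¹ ∈ K ∧ kap (h * x * h⁻¹) = kap x

/-- The theorem of block RP (helper5) which is used in the assembly. -/
def SpecPAIR : Prop :=
  ∀ (G : Type) [Group G] [Finite G] (F H K : Subgroup G) (kap : G → ℂ), IsPair F H K kap →
    ∀ (E : Subgroup G) (bet : G → ℂ), E ≤ H → (∀ x ∈ E, ∀ y ∈ E, x * y = y * x) →
    (∀ x ∈ E, PFix K kap x) →
    (∀ h ∈ H, PFix K kap h → ∀ x ∈ E, h * x * h⁻¹ ∈ E) →
    bet 1 = 1 → (∀ x ∈ E, ∀ y ∈ E, bet (x * y) = bet x * bet y) →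
    ∃ d, IsDeg G d ∧ (∀ r, r.Prime → r ∣ K.relIndex F → r ∣ d) ∧
      ∀ r, r.Prime → (∀ R : Subgroup G, SylIn r H R →
        ∃ h ∈ R, ¬ (PFix K kap h ∧ ∀ x ∈ E, bet (h * x * h⁻¹) = bet x)) → r ∣ d

/-- A fully ramified pair `(K, κ)` in one factor `Q` (local version of `IsPair`). -/
structure LPair {G : Type} [Group G] (Q K : Subgroup G) (kap : G → ℂ) : Prop where
  KQ : K ≤ Q
  chr : IsChar K kap
  com : ∀ x ∈ Q, ∀ y ∈ Q, cm x y ∈ K
  inv : ∀ x ∈ K, ∀ y ∈ Q, kap (y * x * y⁻¹) = kap x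
  ram : ∀ x ∈ Q, x ∉ K → ∃ y ∈ Q, kap (cm x y) ≠ 1

/-- `K` is the radical of the form `(x, y) ↦ f [x, y]` on `P`. -/
def IsRad {G : Type} [Group G] (P K : Subgroup G) (f : G → ℂ) : Prop :=
  ∀ x, x ∈ K ↔ x ∈ P ∧ ∀ y ∈ P, f (cm x y) = 1

/-! ## 1. General modules (no `IsSplit`) -/

/-- **COO** [150]: coordinates of a product of normal subgroups of coprime orders.
Proof. `Q o` and `Q o'` (o ≠ o') are normal and disjoint (coprime orders), so they commute
elementwise (`Subgroup.commute_of_normal_of_disjoint`). `Subgroup.noncommPiCoprod` is a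
homomorphism `Π o, Q o →* G`; it is injective (`Subgroup.injective_noncommPiCoprod_of_iSupIndep`,
`Subgroup.independent_of_coprime_order`) and its range is `⨆ o, Q o`
(`Subgroup.noncommPiCoprod_range`). Put `c o f :=` the `o`-th coordinate of the preimage of `f`
if `f ∈ ⨆ o, Q o`, and `1` otherwise. `self`, `off`: the preimage of `f ∈ Q o'` is
`Pi.mulSingle o' f`. `conj`: `g (N x) g⁻¹ = N (g x g⁻¹)` (both sides are homomorphisms in `x`, or
use that `x ↦ g x g⁻¹` is an automorphism and `noncommPiCoprod` is a noncommutative product),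
then injectivity. -/
def SpecCOO : Prop :=
  ∀ (G ι' : Type) [Group G] [Finite G] [Finite ι'] (Q : ι' → Subgroup G),
    (∀ o, (Q o).Normal) →
    (∀ o o', o ≠ o' → Nat.Coprime (Nat.card (Q o)) (Nat.card (Q o'))) →
    ∃ c : ι' → G → G, IsCoord (⨆ o, Q o) Q c

/-- **MOD** [200]: existence of the module `W`.
Proof. `W := ∀ o, Additive (Q o ⧸ (Ph o).subgroupOf (Q o))` (a commutative group because all
commutators of `Q o` lie in `Ph o`), `H` acts by conjugation on each factor (`Q o` and `Ph o` are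
normal in `G`), `cl o x := Pi.single o (class of x)` if `x ∈ Q o` and `0` otherwise,
`rp o w := ((w o).out : G)` (a representative of `w o`). Everything is then checked
componentwise. (If you prefer: first build, for one pair `Ph ≤ Q`, the group `Q / Ph` with its
action, a class map and representatives, then the product over `o`.) -/
def SpecMOD : Prop :=
  ∀ (G ι' : Type) [Group G] [Finite G] [Finite ι'] (Q Ph : ι' → Subgroup G) (H : Subgroup G),
    (∀ o, (Q o).Normal) → (∀ o, (Ph o).Normal) → (∀ o, Ph o ≤ Q o) →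
    (∀ o, ∀ x ∈ Q o, ∀ y ∈ Q o, cm x y ∈ Ph o) →
    ∃ (W : Type) (_ : AddCommGroup W) (_ : DistribMulAction H W) (cl : ι' → G → W)
      (rp : ι' → W → G), IsMod Q Ph H W cl rp

/-- **IMG** [60]: elements of the image of a subgroup `S ≤ Q o`.
Proof. `cl o 1 = 0` and `cl o x⁻¹ = - cl o x` by `mul`; so `{cl o x : x ∈ S}` is closed under
addition and negation: induction on the closure. -/
def SpecIMG : Prop :=
  ∀ (G ι' : Type) [Group G] (Q Ph : ι' → Subgroup G) (H : Subgroup G)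
    (W : Type) [AddCommGroup W] [DistribMulAction H W] (cl : ι' → G → W) (rp : ι' → W → G),
    IsMod Q Ph H W cl rp → ∀ (o : ι') (S : Subgroup G), S ≤ Q o →
      ∀ w, w ∈ img (cl o) S ↔ ∃ x ∈ S, cl o x = w

/-- **MAS** [150]: Maschke, for a component `C` of exponent `p` and `p ∤ |H|`.
Proof. `C` is a vector space over `ZMod p` (`AddCommGroup.zmodModule`) and `A` a subspace; choose a
linear projection `π : C → A` (`Submodule.exists_leftInverse_of_injective`, or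
`Submodule.exists_isCompl`), and `m` with `m |H| = 1` in `ZMod p`. Then
`π' x := m • ∑ h, h • π (h⁻¹ • x)` is additive, `H`-equivariant, maps `C` into `A` and is the
identity on `A`; `A' := {x ∈ C : π' x = 0}`; `x = π' x + (x - π' x)`. -/
def SpecMAS : Prop :=
  ∀ (V H : Type) [AddCommGroup V] [Group H] [Finite H] [DistribMulAction H V] (p : ℕ),
    p.Prime → ¬ p ∣ Nat.card H → ∀ C : AddSubgroup V, (∀ x ∈ C, p • x = 0) →
    (∀ h : H, ∀ x ∈ C, h • x ∈ C) →
    ∀ A : AddSubgroup V, A ≤ C → (∀ h : H, ∀ x ∈ A, h • x ∈ A) →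
      ∃ A' : AddSubgroup V, A' ≤ C ∧ (∀ h : H, ∀ x ∈ A', h • x ∈ A') ∧ A ⊓ A' = ⊥ ∧ A ⊔ A' = C

/-- **DUA** [150]: the dual of a commutative normal subgroup.
Proof. `Z := Additive (D →* ℂˣ)`, `(h • μ) x := μ (h⁻¹ x h)`, `ev μ x := μ ⟨x, _⟩` if `x ∈ D` and
`1` otherwise. `sep`: duality of finite commutative groups
(`CommGroup.exists_apply_ne_one_of_hasEnoughRootsOfUnity`, Mathlib.GroupTheory.FiniteAbelian.Duality;
`ℂ` has enough roots of unity). `surj`: `f x * f x⁻¹ = 1` on `D`, so `f` is a homomorphism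
`D →* ℂˣ`. Finiteness: `Finite (D →* ℂˣ)` (values are `|D|`-th roots of unity; also in the
Duality file). -/
def SpecDUA : Prop :=
  ∀ (G : Type) [Group G] [Finite G] (D H : Subgroup G), D.Normal →
    (∀ x ∈ D, ∀ y ∈ D, x * y = y * x) →
    ∃ (Z : Type) (_ : AddCommGroup Z) (_ : DistribMulAction H Z) (ev : Z → G → ℂ),
      IsDual D H Z ev

/-- **ZIR** [150]: the dual of an irreducible module is irreducible.
Proof. `N := {x ∈ D : ∀ μ ∈ A, ev μ x = 1}` is a subgroup, `H`-invariant (`A` is), so `⊥` or `D`.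
If `N = D` then every `μ ∈ A` is `0` by `ext` (compare with `ev 0 x = 1`, from `add`), `A = ⊥`. If
`N = ⊥` then `D` embeds in `Hom(A, ℂˣ)` by `x ↦ (μ ↦ ev μ x)` (a homomorphism, injective), so
`|D| ≤ |Hom(A, ℂˣ)| = |A|`; and `Z` embeds in `Hom(D, ℂˣ)` by `ext`, so `|Z| ≤ |D|`. So
`|A| ≥ |Z|`, `A = ⊤`. (`Nat.card (A →* ℂˣ) = Nat.card A`: Mathlib
`CommGroup.card_monoidHom_of_hasEnoughRootsOfUnity` or `monoidHom_mulEquiv_...`.) -/
def SpecZIR : Prop :=
  ∀ (G : Type) [Group G] [Finite G] (D H : Subgroup G) (Z : Type) [AddCommGroup Z]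
    [DistribMulAction H Z] (ev : Z → G → ℂ), D.Normal → (∀ x ∈ D, ∀ y ∈ D, x * y = y * x) →
    IsDual D H Z ev →
    (∀ N : Subgroup G, N ≤ D → (∀ h ∈ H, ∀ x ∈ N, h * x * h⁻¹ ∈ N) → N = ⊥ ∨ N = D) →
    ∀ A : AddSubgroup Z, (∀ h : H, ∀ μ ∈ A, h • μ ∈ A) → A = ⊥ ∨ A = ⊤

/-- **EXT** [120]: extension of a linear character from `D` to `K` if it kills the commutators.
Proof. `N := {x ∈ D : f x = 1}` is a subgroup of `K` containing all commutators `cm x y`, so it is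
normal in `K` and `K / N` is a finite commutative group. `f` defines a character of the image
`D / N` of `D` in `K / N`; characters of subgroups of finite commutative groups extend (Mathlib
Duality file: `MonoidHom.restrict_surjective` for `HasEnoughRootsOfUnity`, or: the units `ℂˣ` are
divisible/injective). Compose with `K → K / N` and extend by `1` outside `K`. -/
def SpecEXT : Prop :=
  ∀ (G : Type) [Group G] [Finite G] (D K : Subgroup G) (f : G → ℂ), D ≤ K → IsChar D f →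
    (∀ x ∈ K, ∀ y ∈ K, cm x y ∈ D ∧ f (cm x y) = 1) →
    ∃ g : G → ℂ, IsChar K g ∧ ∀ x ∈ D, g x = f x

/-- **INV** [120, from EXT]: an extension which is invariant under a group `C` of order prime to
`p`.
Proof. Let `φ` be an extension (EXT), `φ_h x := φ (h x h⁻¹)` for `h ∈ C`; `φ_h` is a linear
character of `K` and on `D` it is `f (h x h⁻¹) = f x`. Put `g x := (∏ h ∈ C, φ (h x h⁻¹)) ^ m`
with `m |C| ≡ 1 mod p` (`p ∤ |C|`). On `D`: `f x ^ (m |C|) = f x` as `f x ^ p = f (x ^ p) = 1`.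
Invariance: `∏ over h of φ (h h' x h'⁻¹ h⁻¹)` is the same product reindexed. -/
def SpecINV : Prop :=
  ∀ (G : Type) [Group G] [Finite G] (D K C : Subgroup G) (p : ℕ) (f : G → ℂ), p.Prime →
    D ≤ K → IsChar D f → (∀ x ∈ D, x ^ p = 1) → ¬ p ∣ Nat.card C →
    (∀ x ∈ K, ∀ y ∈ K, cm x y ∈ D ∧ f (cm x y) = 1) →
    (∀ h ∈ C, ∀ x ∈ K, h * x * h⁻¹ ∈ K) →
    (∀ h ∈ C, ∀ x ∈ D, h * x * h⁻¹ ∈ D ∧ f (h * x * h⁻¹) = f x) →
    ∃ g : G → ℂ, IsChar K g ∧ (∀ x ∈ D, g x = f x) ∧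
      ∀ h ∈ C, ∀ x ∈ K, g (h * x * h⁻¹) = g x

/-- **RAD** [100]: the radical is a subgroup; local class 2 calculus.
Proof. As all commutators of `P` are central in `P`: `cm (x x') y = cm x y * cm x' y`,
`cm x (y y') = cm x y * cm x y'`, `cm x⁻¹ y = (cm x y)⁻¹`, `cm 1 y = 1`; `f` is multiplicative on
`⁅P, P⁆`. The second statement: `cm (x ^ n) y = (cm x y) ^ n`. -/
def SpecRAD : Prop :=
  ∀ (G : Type) [Group G] (P : Subgroup G), (∀ x ∈ ⁅P, P⁆, ∀ y ∈ P, x * y = y * x) →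
    (∀ f : G → ℂ, IsChar ⁅P, P⁆ f → ∃ K : Subgroup G, IsRad P K f) ∧
    (∀ x ∈ P, ∀ y ∈ P, cm x y ∈ ⁅P, P⁆) ∧
    (∀ x ∈ P, ∀ x' ∈ P, ∀ y ∈ P, cm (x * x') y = cm x y * cm x' y) ∧
    (∀ x ∈ P, ∀ y ∈ P, ∀ y' ∈ P, cm x (y * y') = cm x y * cm x y') ∧
    ∀ x ∈ P, ∀ y ∈ P, ∀ n : ℕ, cm (x ^ n) y = cm x y ^ n

/-- **LOC** [100, from RAD]: the local pair.
Proof. `K ≤ P` by definition. `com`: `cm x y ∈ ⁅P, P⁆` is central in `P`, so `cm (cm x y) z = 1`
and `f 1 = 1`. `κ = kz * ell` is a product of two characters of `K`. On `⁅P, P⁆` it equals `f`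
(`kz = f`, `ell = 1`). `inv`: `y x y⁻¹ = cm y x * x`, `κ (cm y x) = f (cm y x) = 1`, because
`cm y x = (cm x y)⁻¹` and `f (cm x y) = 1`. `ram`: definition of `K`. -/
def SpecLOC : Prop :=
  ∀ (G : Type) [Group G] (P K : Subgroup G) (f kz ell : G → ℂ),
    (∀ x ∈ ⁅P, P⁆, ∀ y ∈ P, x * y = y * x) → IsChar ⁅P, P⁆ f → IsRad P K f →
    IsChar K kz → (∀ x ∈ ⁅P, P⁆, kz x = f x) → IsChar P ell → (∀ x ∈ ⁅P, P⁆, ell x = 1) →
    LPair P K (fun x => kz x * ell x) ∧ ⁅P, P⁆ ≤ K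

/-- **STB** [100]: who fixes the local pair.
Proof. (→) For `x ∈ ⁅P, P⁆ ≤ K`: `κ x = f x` and `h x h⁻¹ ∈ ⁅P, P⁆` (`P` is normalised by `h`),
so `f (h x h⁻¹) = f x`; then `kz (h x h⁻¹) = kz x` on `K` by hypothesis, and one cancels
`kz x ≠ 0` (`kz x * kz x⁻¹ = 1`). (←) `K` is preserved: for `x ∈ K`, `y ∈ P`,
`cm (h x h⁻¹) y = h (cm x (h⁻¹ y h)) h⁻¹` and `f` is `h`-invariant on `⁅P, P⁆`. -/
def SpecSTB : Prop :=
  ∀ (G : Type) [Group G] (P K : Subgroup G) (f kz ell : G → ℂ) (h : G),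
    (∀ x, x ∈ P ↔ h * x * h⁻¹ ∈ P) →
    (∀ x ∈ ⁅P, P⁆, ∀ y ∈ P, x * y = y * x) → IsChar ⁅P, P⁆ f → IsRad P K f →
    IsChar K kz → (∀ x ∈ ⁅P, P⁆, kz x = f x) → IsChar P ell → (∀ x ∈ ⁅P, P⁆, ell x = 1) →
    ((∀ x ∈ ⁅P, P⁆, f (h * x * h⁻¹) = f x) → ∀ x ∈ K, kz (h * x * h⁻¹) = kz x) →
    (PFix K (fun x => kz x * ell x) h ↔
      (∀ x ∈ ⁅P, P⁆, f (h * x * h⁻¹) = f x) ∧ ∀ x ∈ K, ell (h * x * h⁻¹) = ell x)

/-- **IDX** [80]: indices in a `p`-group.
Proof. `K.relIndex P` divides `|P|`, a power of `p`. If it is `1` then `P ≤ K`; if it is not `1`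
it is divisible by `p`. -/
def SpecIDX : Prop :=
  ∀ (G : Type) [Group G] [Finite G] (P K : Subgroup G) (p n : ℕ), p.Prime → IsPGroup p P →
    ¬ p ∣ n → n ≠ 0 → Nat.Coprime (K.relIndex P) n ∧ (¬ P ≤ K → p ∣ K.relIndex P)

/-- **PRI** [120]: index of the product subgroup.
Proof. Every `K o` is normal in `Q o` (`com`: `y x y⁻¹ = cm y x * x`). The homomorphism
`F → Π o, Q o ⧸ K o`, `f ↦ (class of c o f)` has kernel `KK`, so `F / KK` embeds in the product and
its order divides the order of the product. (Or: induction over a finite set of `o`, with the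
subgroups `{f ∈ F : c o f ∈ K o}`, whose index in `F` is `(K o).relIndex (Q o)`.) -/
def SpecPRI : Prop :=
  ∀ (G ι' : Type) [Group G] [Finite G] [Fintype ι'] (F : Subgroup G) (Q K : ι' → Subgroup G)
    (c : ι' → G → G) (KK : Subgroup G), IsCoord F Q c → (∀ o, K o ≤ Q o) →
    (∀ o, ∀ x ∈ Q o, ∀ y ∈ Q o, cm x y ∈ K o) →
    (∀ f, f ∈ KK ↔ f ∈ F ∧ ∀ o, c o f ∈ K o) →
    KK.relIndex F ∣ ∏ o, (K o).relIndex (Q o)

/-- **PRP** [150, from PRI]: the product of local pairs is a pair.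
Proof. `KK := {f ∈ F : ∀ o, c o f ∈ K o}` (a subgroup: `c o` is multiplicative on `F`, so
`c o 1 = 1`, `c o f⁻¹ = (c o f)⁻¹`). `Fn`: hypothesis. All fields are checked coordinatewise:
`c o (cm x y) = cm (c o x) (c o y)`. `Kn`: `y x y⁻¹ = cm y x * x` with `FK`. `inv`: the factors are
`kap o (c o y * c o x * (c o y)⁻¹) = kap o (c o x)`. `ram`: some `c o x ∉ K o`; take `y ∈ Q o` of
`ram` for `o`, then `c o' y = 1` for `o' ≠ o` and all other factors are `kap o' 1 = 1`.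
`cop`: from PRI, `KK.relIndex F` divides `∏ o, (K o).relIndex (Q o)`. -/
def SpecPRP : Prop :=
  ∀ (G ι' : Type) [Group G] [Finite G] [Fintype ι'] (F H : Subgroup G) (Q K : ι' → Subgroup G)
    (c : ι' → G → G) (kap : ι' → G → ℂ), IsCoord F Q c → F.Normal → F ⊔ H = ⊤ → F ⊓ H = ⊥ →
    (∀ o, LPair (Q o) (K o) (kap o)) →
    (∀ o, Nat.Coprime ((K o).relIndex (Q o)) (Nat.card H)) →
    ∃ KK : Subgroup G, (∀ f, f ∈ KK ↔ f ∈ F ∧ ∀ o, c o f ∈ K o) ∧
      IsPair F H KK (fun f => ∏ o, kap o (c o f))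

/-- **PRF** [100]: the stabiliser of the product pair, and divisibility of the index.
Proof. (→) For `x ∈ K o`: `c o x = x`, `c o' x = 1`, so `x ∈ KK` and the product is `kap o x`;
`c o (h x h⁻¹) = h x h⁻¹`, `c o' (h x h⁻¹) = h 1 h⁻¹ = 1`. (←) coordinatewise by `conj`.
Divisibility: `KK ⊓ Q o = K o` and `KK` is normal in `F` (the commutators of `F` are in `KK`),
so `(K o).relIndex (Q o) = KK.relIndex (Q o)` divides `KK.relIndex F`
(`Subgroup.relIndex_dvd_of_le_left`, `relIndex_sup_right`, or Lagrange in `F / KK`). -/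
def SpecPRF : Prop :=
  ∀ (G ι' : Type) [Group G] [Finite G] [Fintype ι'] (F : Subgroup G) (Q K : ι' → Subgroup G)
    (c : ι' → G → G) (kap : ι' → G → ℂ) (KK : Subgroup G), IsCoord F Q c → F.Normal →
    (∀ o, K o ≤ Q o) → (∀ o, IsChar (K o) (kap o)) →
    (∀ o, ∀ x ∈ Q o, ∀ y ∈ Q o, cm x y ∈ K o) →
    (∀ f, f ∈ KK ↔ f ∈ F ∧ ∀ o, c o f ∈ K o) →
    (∀ h : G, PFix KK (fun f => ∏ o, kap o (c o f)) h ↔ ∀ o, PFix (K o) (kap o) h) ∧
      ∀ o, (K o).relIndex (Q o) ∣ KK.relIndex F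

/-! ## 2. Modules on `IsSplit` -/

/-- **SPL** [150]: elementary consequences of `IsSplit`.
Proofs. (1) the orders of `U`, `P i` are pairwise coprime: `|P i|` is a power of `pr i`, the
`pr i` are different primes, `Ucop`. (2) `(⨆ i, P i) ⊔ U = ⨆ o, QQ P U o`. (3) elements of
different `QQ P U o` commute (both normal, disjoint by coprime orders). (4), (5) a subgroup
`N ≤ ⁅P i, P i⁆` (or `N ≤ U`) normalised by `H` is normal in `G`: the subgroup `F = ⨆ QQ P U o`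
centralises it (`P i` by `cen`, the other factors by (3); `U` is commutative), and `F ⊔ H = ⊤`:
the normaliser of `N` contains `F` and `H`. -/
def SpecSPL : Prop :=
  ∀ (G ι : Type) [Group G] [Finite G] [Finite ι] (pr : ι → ℕ) (P : ι → Subgroup G)
    (U H : Subgroup G), IsSplit pr P U H →
    (∀ o o', o ≠ o' → Nat.Coprime (Nat.card (QQ P U o)) (Nat.card (QQ P U o'))) ∧
    (⨆ i, P i) ⊔ U = ⨆ o, QQ P U o ∧
    (∀ o o', o ≠ o' → ∀ x ∈ QQ P U o, ∀ y ∈ QQ P U o', x * y = y * x) ∧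
    (∀ i, ∀ N : Subgroup G, N ≤ ⁅P i, P i⁆ → (∀ h ∈ H, ∀ x ∈ N, h * x * h⁻¹ ∈ N) → N.Normal) ∧
    ∀ N : Subgroup G, N ≤ U → (∀ h ∈ H, ∀ x ∈ N, h * x * h⁻¹ ∈ N) → N.Normal

/-- **ELE** [120, from RAD]: `P i'` has exponent `pr i`, `Φ(P i)` is central, normality.
Proofs. (1) `N := {z ∈ ⁅P i, P i⁆ : z ^ p = 1}` (`p = pr i`) is a subgroup (`⁅P i, P i⁆` is
commutative by `cen`), normal in `G`, and not `⊥` (Cauchy in the nontrivial `p`-group
`⁅P i, P i⁆`), so `N = ⁅P i, P i⁆` by `mn`. (2) `cm (x ^ p) y = cm x y ^ p = 1` for `x, y ∈ P i`,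
and `⁅P i, P i⁆` is central. (3) conjugates of commutators and `p`-th powers are of the same
form. (4) for `x ∈ P i` the `p`-th power is in `PhiG`. -/
def SpecELE : Prop :=
  ∀ (G ι : Type) [Group G] [Finite G] (pr : ι → ℕ) (P : ι → Subgroup G)
    (U H : Subgroup G), IsSplit pr P U H →
    (∀ i, ∀ x ∈ ⁅P i, P i⁆, x ^ pr i = 1) ∧ (∀ i, PhiG (P i) (pr i) ≤ Zc (P i)) ∧
    (∀ i, (PhiG (P i) (pr i)).Normal) ∧ (∀ i, (Zc (P i)).Normal) ∧
    ∀ i, ∀ x ∈ P i, x ^ pr i ∈ PhiG (P i) (pr i)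

/-- **SET** [150, from MOD, IMG, MAS, DUA, SPL, ELE]: the setup exists.
Proof. MOD with `Q = QQ P U`, `Ph = PP pr P` gives `W, cl, rp`; DUA with `D = ⁅P i, P i⁆` gives
`Z i, ev i` (use `choose`, instances by `Classical.choose`); MAS in `W` with
`C = img (cl (some i)) (P i)` (exponent `pr i` because `x ^ p ∈ PhiG`), `A = img (cl (some i))
(Zc (P i))` gives `M i`. Invariance of the images: `cl (h x h⁻¹) = h • cl x`, `P i`, `Zc (P i)`
are normal. -/
def SpecSET : Prop :=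
  ∀ (G ι : Type) [Group G] [Finite G] [Finite ι] (pr : ι → ℕ) (P : ι → Subgroup G)
    (U H : Subgroup G), IsSplit pr P U H →
    ∃ (W : Type) (_ : AddCommGroup W) (_ : DistribMulAction H W) (cl : Option ι → G → W)
      (rp : Option ι → W → G) (Z : ι → Type) (_ : ∀ i, AddCommGroup (Z i))
      (_ : ∀ i, DistribMulAction H (Z i)) (ev : ∀ i, Z i → G → ℂ) (M : ι → AddSubgroup W),
      Setup pr P U H W cl rp Z ev M

/-- **IND** [150, from IMG]: the components are independent and span, are invariant.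
Proof. Put `pj o w := cl o (rp o w)`; it is additive, `pj o` is the identity on the image of `cl o`
and `0` on the image of `cl o'` (`o ≠ o'`), and `w = 0` if all `pj o w = 0`. So every `w` equals
`∑ o, pj o w` (apply `ext` to the difference) and lies in the sum of the images
`img (cl o) (QQ P U o)`, i.e. in the sum of the `cmp c` (use `Msup`): `top`.
`ind`: let `x ∈ cmp c` lie in the supremum of the other components. Applying `pj o` (`c` belongs
to `o`) kills the components of other `o'`, so `x = pj o x` lies in the other component of the same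
`o` (`M i` against the image of the centre, or nothing for `U`), and `x = 0` by `Mdis`.
`inv`: `Minv`, and `cl (h x h⁻¹) = h • cl x` with `Zc (P i)`, `U` normal (for `Zc`: conjugation by
`h` preserves `P i` and its centraliser). -/
def SpecIND : Prop :=
  ∀ (G ι : Type) [Group G] [Finite G] [Finite ι] (pr : ι → ℕ) (P : ι → Subgroup G)
    (U H : Subgroup G)
    (W : Type) [AddCommGroup W] [DistribMulAction H W] (cl : Option ι → G → W)
    (rp : Option ι → W → G) (Z : ι → Type) [∀ i, AddCommGroup (Z i)]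
    [∀ i, DistribMulAction H (Z i)] (ev : ∀ i, Z i → G → ℂ) (M : ι → AddSubgroup W),
    Setup pr P U H W cl rp Z ev M →
    iSupIndep (cmpB P U cl M) ∧ iSup (cmpB P U cl M) = ⊤ ∧
      ∀ c, ∀ h : H, ∀ x ∈ cmpB P U cl M c, h • x ∈ cmpB P U cl M c

/-- **CRE** [120, from IMG, MAS, SPL, ELE, IND]: complete reducibility of the components, exponents.
Proof. `cmp (inl i)` and `cmp (inr (some i))` lie in `img (cl (some i)) (P i)`, of exponent `pr i`
(`cl (x ^ p) = p • cl x`, `x ^ p ∈ PhiG`, `ker`): MAS. `cmp (inr none) = img (cl none) U`, and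
`cl none` is injective on `U` (`ker` with `⊥`): `A ≤ cmp` gives the subgroup
`N := {x ∈ U : cl none x ∈ A}`, invariant under `H`, so normal (SPL), and `Ucr` gives `N'`;
`A' := img (cl none) N'`. -/
def SpecCRE : Prop :=
  ∀ (G ι : Type) [Group G] [Finite G] [Finite ι] (pr : ι → ℕ) (P : ι → Subgroup G)
    (U H : Subgroup G)
    (W : Type) [AddCommGroup W] [DistribMulAction H W] (cl : Option ι → G → W)
    (rp : Option ι → W → G) (Z : ι → Type) [∀ i, AddCommGroup (Z i)]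
    [∀ i, DistribMulAction H (Z i)] (ev : ∀ i, Z i → G → ℂ) (M : ι → AddSubgroup W),
    Setup pr P U H W cl rp Z ev M →
    (∀ c, ∀ A : AddSubgroup W, A ≤ cmpB P U cl M c → (∀ h : H, ∀ x ∈ A, h • x ∈ A) →
      ∃ A' : AddSubgroup W, A' ≤ cmpB P U cl M c ∧ (∀ h : H, ∀ x ∈ A', h • x ∈ A') ∧
        A ⊓ A' = ⊥ ∧ A ⊔ A' = cmpB P U cl M c) ∧
    ∀ i, ∀ x ∈ img (cl (some i)) (P i), pr i • x = 0

/-- **FT1** [120]: coprime action, pure group theory.
Proof. Write `Φ = PhiG P p` (central in `P`), `t x := h x h⁻¹ x⁻¹ ∈ Φ` for `x ∈ P`.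
`t (x y) = t x * (x * t y * x⁻¹) = t x * t y`: `t` is a homomorphism on `P`; so `t = 1` on
`⁅P, P⁆` (values are central, commute) and `t (x ^ p) = (t x) ^ p`.
CLAIM for all `k`: for every `x ∈ P` there is `z ∈ Φ` with `t x = z ^ (p ^ k)`. Let
`Φ_k := {z ^ (p ^ k) : z ∈ Φ}`, a subgroup (`Φ` is commutative). `k = 0`: hypothesis. Step: for
`x ∈ P`, `t (x ^ p) = (t x) ^ p ∈ Φ_(k+1)`, and `t = 1` on commutators, so `t Φ ⊆ Φ_(k+1)`; in
particular `t (t x) ∈ Φ_(k+1)`. By induction on `n`: `h ^ n x h ^ (-n) ∈ (t x) ^ n * x * Φ_(k+1)`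
[`h ((t x) ^ n x u) h⁻¹ = t (t x) ^ n * t x * t u * (t x) ^ n * x * u`, everything except `x` is in
`Φ`]. For `n = orderOf h =: m`: `(t x) ^ m ∈ Φ_(k+1)`; `m` is prime to `p` and `t x` has `p`-power
order, so `t x` is a power of `(t x) ^ m`: `t x ∈ Φ_(k+1)`.
For `p ^ k = |P|`-ish large, `z ^ (p ^ k) = 1`: `t x = 1`. -/
def SpecFT1 : Prop :=
  ∀ (G : Type) [Group G] [Finite G] (P : Subgroup G) (p : ℕ) (h : G), p.Prime → IsPGroup p P →
    PhiG P p ≤ Zc P → (∀ x, x ∈ P ↔ h * x * h⁻¹ ∈ P) → ¬ p ∣ orderOf h →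
    (∀ x ∈ P, h * x * h⁻¹ * x⁻¹ ∈ PhiG P p) → ∀ x ∈ P, h * x = x * h

/-- **FTH** [80, from FT1, ELE]: `H` acts faithfully on `W`.
Proof. Let `h ∈ H` act trivially on `W`. For `x ∈ QQ P U o`: `cl o (h x h⁻¹) = h • cl o x = cl o x`, so
`cl o (h x h⁻¹ x⁻¹) = 0` and `h x h⁻¹ x⁻¹ ∈ PP pr P o` (`ker`). For `o = none` this is `⊥`. For
`o = some i` FT1 applies (`orderOf h` divides `|H|`, prime to `pr i`). So `h` commutes with `U` and
all `P i`: `h = 1` by `IsSplit.faith`. -/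
def SpecFTH : Prop :=
  ∀ (G ι : Type) [Group G] [Finite G] [Finite ι] (pr : ι → ℕ) (P : ι → Subgroup G)
    (U H : Subgroup G)
    (W : Type) [AddCommGroup W] [DistribMulAction H W] (cl : Option ι → G → W)
    (rp : Option ι → W → G) (Z : ι → Type) [∀ i, AddCommGroup (Z i)]
    [∀ i, DistribMulAction H (Z i)] (ev : ∀ i, Z i → G → ℂ) (M : ι → AddSubgroup W),
    Setup pr P U H W cl rp Z ev M → ∀ h : H, (∀ x : W, h • x = x) → h = 1

/-- **NEZ** [120, from IMG, ZIR, SPL, ELE]: `M i ≠ 0`; `Z i` is nontrivial, irreducible, of exponent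
`pr i`.
Proofs. If `M i = ⊥` then by `Msup` the images of `Zc (P i)` and `P i` agree: for `x ∈ P i` there is
`z ∈ Zc (P i)` with `cl x = cl z`, `x z⁻¹ ∈ PhiG ≤ Zc` (ELE), `x ∈ Zc (P i)`: `P i` is commutative,
`⁅P i, P i⁆ = ⊥`, contradiction to `nab`. Nontrivial: take `x ∈ ⁅P i, P i⁆`, `x ≠ 1`; `sep` gives `μ`
with `ev μ x ≠ 1`; `ev 0 x = 1` (from `add`), so `μ ≠ 0`. Irreducible: ZIR, with SPL (4) and `mn`.
Exponent: `ev (n • μ) x = ev μ x ^ n = ev μ (x ^ n)`, ELE (1), `ext`. -/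
def SpecNEZ : Prop :=
  ∀ (G ι : Type) [Group G] [Finite G] [Finite ι] (pr : ι → ℕ) (P : ι → Subgroup G)
    (U H : Subgroup G)
    (W : Type) [AddCommGroup W] [DistribMulAction H W] (cl : Option ι → G → W)
    (rp : Option ι → W → G) (Z : ι → Type) [∀ i, AddCommGroup (Z i)]
    [∀ i, DistribMulAction H (Z i)] (ev : ∀ i, Z i → G → ℂ) (M : ι → AddSubgroup W),
    Setup pr P U H W cl rp Z ev M →
    (∀ i, M i ≠ ⊥) ∧ (∀ i, Nontrivial (Z i)) ∧
    (∀ i, ∀ A : AddSubgroup (Z i), (∀ h : H, ∀ μ ∈ A, h • μ ∈ A) → A = ⊥ ∨ A = ⊤) ∧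
    ∀ i, ∀ μ : Z i, pr i • μ = 0

/-- **BPR** [200, from RAD, IMG, ELE]: the forms `B i`.
Proofs. Write `cl = cl (some i)`, `rp = rp (some i)`, `P = P i`. KEY: if `x, x' ∈ P`, `cl x = cl x'`
then `x' = x t`, `t ∈ PhiG ≤ Zc P`, so `cm x y = cm x' y` and `cm y x = cm y x'` for `y ∈ P`. All
`rp w ∈ P`. (9) `cl (rp (cl x)) = cl x`. (1) `IsChar` on `⁅P, P⁆`: `f z * f z⁻¹ = 1`. (2) `add`.
(3) `cl (rp (x + x')) = cl (rp x) + cl (rp x') = cl (rp x * rp x')`, then bilinearity of `cm` (RAD) and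
`mul`. (4) same. (5) `cm a a = 1`. (6) `cl (rp (h • w)) = h • cl (rp w) = cl (h (rp w) h⁻¹)`,
`cm (h a h⁻¹) (h b h⁻¹) = h (cm a b) h⁻¹`, `IsDual.act`. (7) `c ≠ inl i` and `x ∈ cmp c`: if `c`
belongs to another `o ≠ some i` then `cl (rp x) = 0` by `roff`, `rp x ∈ PhiG ≤ Zc P`, `cm = 1`; if
`c = inr (some i)`: `x = cl z`, `z ∈ Zc P`, `cl (rp x) = cl z`, KEY, `cm z _ = 1`. (8) `x ∈ M i`,
`x = cl a`, `a ∈ P` (`Mle`, IMG): by (9) `ev μ (cm a y) = 1` for all `μ`, `y ∈ P`, so `cm a y = 1`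
(`sep`), `a ∈ Zc P`, `x ∈ M i ⊓ img cl (Zc P) = ⊥`. -/
def SpecBPR : Prop :=
  ∀ (G ι : Type) [Group G] [Finite G] [Finite ι] (pr : ι → ℕ) (P : ι → Subgroup G)
    (U H : Subgroup G)
    (W : Type) [AddCommGroup W] [DistribMulAction H W] (cl : Option ι → G → W)
    (rp : Option ι → W → G) (Z : ι → Type) [∀ i, AddCommGroup (Z i)]
    [∀ i, DistribMulAction H (Z i)] (ev : ∀ i, Z i → G → ℂ) (M : ι → AddSubgroup W),
    Setup pr P U H W cl rp Z ev M →
    (∀ i μ x y, BB rp ev i μ x y ≠ 0) ∧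
    (∀ i (μ ν : Z i) (x y : W), BB rp ev i (μ + ν) x y = BB rp ev i μ x y * BB rp ev i ν x y) ∧
    (∀ i (μ : Z i) (x x' y : W),
      BB rp ev i μ (x + x') y = BB rp ev i μ x y * BB rp ev i μ x' y) ∧
    (∀ i (μ : Z i) (x y y' : W),
      BB rp ev i μ x (y + y') = BB rp ev i μ x y * BB rp ev i μ x y') ∧
    (∀ i (μ : Z i) (x : W), BB rp ev i μ x x = 1) ∧
    (∀ i (h : H) (μ : Z i) (x y : W), BB rp ev i (h • μ) (h • x) (h • y) = BB rp ev i μ x y) ∧
    (∀ i c, c ≠ Sum.inl i → ∀ μ, ∀ x ∈ cmpB P U cl M c, ∀ y, BB rp ev i μ x y = 1) ∧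
    (∀ i, ∀ x ∈ cmpB P U cl M (Sum.inl i), (∀ μ y, BB rp ev i μ x y = 1) → x = 0) ∧
    ∀ i μ, ∀ x ∈ P i, ∀ y ∈ P i,
      BB rp ev i μ (cl (some i) x) (cl (some i) y) = ev i μ (cm x y)

/-- **COR** [120, from IND, CRE, FTH, NEZ, BPR]: `IsCore`.
Proof. Collect the fields; `sol`: subgroup of a solvable group; `finκ`: `κ = Option ι`; `cop`,
`large` from `IsSplit`. -/
def SpecCOR : Prop :=
  ∀ (G ι : Type) [Group G] [Finite G] [Finite ι] (pr : ι → ℕ) (P : ι → Subgroup G)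
    (U H : Subgroup G)
    (W : Type) [AddCommGroup W] [DistribMulAction H W] (cl : Option ι → G → W)
    (rp : Option ι → W → G) (Z : ι → Type) [∀ i, AddCommGroup (Z i)]
    [∀ i, DistribMulAction H (Z i)] (ev : ∀ i, Z i → G → ℂ) (M : ι → AddSubgroup W),
    Setup pr P U H W cl rp Z ev M →
    IsCore H W Z pr (cmpB P U cl M) (BB rp ev)

/-- **FIX** [150, from IMG, BPR]: translation of `Fixes`.
Proof. (a) `h • mu i = mu i` iff `ev (mu i)` is `h`-invariant on `D = ⁅P i, P i⁆`: `act` says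
`ev (h • μ) (h x h⁻¹) = ev μ x`; conjugation by `h` permutes `D`; `ext`.
(b) `cmp (inr none)`: its elements are `cl none x`, `x ∈ U`, and `h • cl x = cl (h x h⁻¹)`.
(c) `i` fixed, `μ = mu i` with `h • μ = μ`. (→) `x ∈ P i` in the radical. `cl x = m + z`, `m ∈ M i`,
`z` in the image of the centre (`Msup`). `B m y = B (m + z) y = B (cl x) y` (BPR (7), (3)) and
`B (cl x) w = 1` for all `w` (write the relevant part of `w` as `cl y`, `y = rp w`: by definition of
`BB` and (9) `B (cl x) w = ev μ (cm (rp (cl x)) (rp w)) = ev μ (cm x (rp w))`), so `lam (h • m) = lam m`;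
also `lam (h • z) = lam z`; multiply (`AddChar.map_add_eq_mul`). (←) elements of
`cmp (inr (some i))` are `cl z`, `z ∈ Zc`, which is in the radical (`cm z y = 1`); elements of `M i`
with `B m y = 1` for all `y` are `cl x`, `x ∈ P i`, with `ev μ (cm x y) = B (cl x) (cl y) = 1`. -/
def SpecFIX : Prop :=
  ∀ (G ι : Type) [Group G] [Finite G] [Finite ι] (pr : ι → ℕ) (P : ι → Subgroup G)
    (U H : Subgroup G)
    (W : Type) [AddCommGroup W] [DistribMulAction H W] (cl : Option ι → G → W)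
    (rp : Option ι → W → G) (Z : ι → Type) [∀ i, AddCommGroup (Z i)]
    [∀ i, DistribMulAction H (Z i)] (ev : ∀ i, Z i → G → ℂ) (M : ι → AddSubgroup W),
    Setup pr P U H W cl rp Z ev M → ∀ (lam : AddChar W ℂ) (mu : ∀ i, Z i) (h : H),
    (Fixes (cmpB P U cl M) (BB rp ev) lam mu h ↔
      (∀ x ∈ U, lam (cl none ((h : G) * x * (h : G)⁻¹)) = lam (cl none x)) ∧
      ∀ i, (∀ x ∈ ⁅P i, P i⁆, ev i (mu i) ((h : G) * x * (h : G)⁻¹) = ev i (mu i) x) ∧
        ∀ x ∈ P i, (∀ y ∈ P i, ev i (mu i) (cm x y) = 1) →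
          lam (cl (some i) ((h : G) * x * (h : G)⁻¹)) = lam (cl (some i) x))

/-- **LCL** [200, from RAD, INV, LOC, STB, IDX, ELE, FIX]: the local pairs of a configuration.
Proof. `o = none`: `K = U`, `kap x = lam (cl none x)`: multiplicative (`AddChar.map_add_eq_mul`),
`cm x y = 1` on `U`, index `1`, `PFix` = invariance (`U` normal).
`o = some i`: `D = ⁅P i, P i⁆`, `f = ev i (mu i)`, `K` = radical (RAD), `D ≤ K`;
`C := {h ∈ H : ∀ x ∈ D, f (h x h⁻¹) = f x}` (a subgroup of `G`, order divides `|H|`), `kz` from INV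
(`x ^ pr i = 1` on `D`: ELE (1); `cm x y ∈ D`, `f = 1` for `x, y ∈ K`; `C` preserves `K`: as in
STB), `ell x = lam (cl (some i) x)`, `1` on `D` because `D ≤ PhiG` and `ker`. LOC gives `LPair`, IDX
the coprimality and: if `mu i ≠ 0` then some `f (cm x y) ≠ 1` [otherwise `f = 1` on `D`, which is
generated by the commutators `cm x y`, so `mu i = 0` by `ext`], so `¬ P i ≤ K` and
`pr i ∣ (K).relIndex (P i)`. Stabiliser: STB for every `i` and FIX. -/
def SpecLCL : Prop :=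
  ∀ (G ι : Type) [Group G] [Finite G] [Finite ι] (pr : ι → ℕ) (P : ι → Subgroup G)
    (U H : Subgroup G)
    (W : Type) [AddCommGroup W] [DistribMulAction H W] (cl : Option ι → G → W)
    (rp : Option ι → W → G) (Z : ι → Type) [∀ i, AddCommGroup (Z i)]
    [∀ i, DistribMulAction H (Z i)] (ev : ∀ i, Z i → G → ℂ) (M : ι → AddSubgroup W),
    Setup pr P U H W cl rp Z ev M → ∀ (lam : AddChar W ℂ) (mu : ∀ i, Z i),
    ∃ (K : Option ι → Subgroup G) (kap : Option ι → G → ℂ),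
      (∀ o, LPair (QQ P U o) (K o) (kap o)) ∧
      (∀ o, Nat.Coprime ((K o).relIndex (QQ P U o)) (Nat.card H)) ∧
      (∀ i, mu i ≠ 0 → pr i ∣ (K (some i)).relIndex (P i)) ∧
      ∀ h : H, ((∀ o, PFix (K o) (kap o) (h : G)) ↔
        Fixes (cmpB P U cl M) (BB rp ev) lam mu h)

/-- **PRC** [120, from COO, SPL, PRP, PRF, LCL]: the pair of a configuration.
Proof. `F := ⨆ o, QQ P U o`, coordinates from COO (SPL (1)); `F` is normal, `F ⊔ H = ⊤`,
`F ⊓ H = ⊥` by SPL (2) and `IsSplit`; PRP and PRF with the local pairs of LCL. -/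
def SpecPRC : Prop :=
  ∀ (G ι : Type) [Group G] [Finite G] [Finite ι] (pr : ι → ℕ) (P : ι → Subgroup G)
    (U H : Subgroup G)
    (W : Type) [AddCommGroup W] [DistribMulAction H W] (cl : Option ι → G → W)
    (rp : Option ι → W → G) (Z : ι → Type) [∀ i, AddCommGroup (Z i)]
    [∀ i, DistribMulAction H (Z i)] (ev : ∀ i, Z i → G → ℂ) (M : ι → AddSubgroup W),
    Setup pr P U H W cl rp Z ev M → ∀ (lam : AddChar W ℂ) (mu : ∀ i, Z i),
    ∃ (F K : Subgroup G) (kap : G → ℂ), IsPair F H K kap ∧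
      (∀ i, mu i ≠ 0 → pr i ∣ K.relIndex F) ∧
      ∀ h : H, (PFix K kap (h : G) ↔ Fixes (cmpB P U cl M) (BB rp ev) lam mu h)

/-- **CNV** [150]: from subgroups of the type `H` to subgroups of `G`.
Proof. Apply SpecPAIR to `E' := c.E.map H.subtype` and `bet' g := c.bet ⟨g, _⟩` if `g ∈ H`, else `1`.
All hypotheses translate through `hfix`. A subgroup `R ≤ H` of `G` with `SylIn r H R` gives
`R.subgroupOf H` with `SylIn r ⊤` (`relIndex`: `(R.subgroupOf H).relIndex ⊤ = (R.subgroupOf H).index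
= R.relIndex H`); `IsPGroup` transports along the injective map `R.subgroupOf H → R`. -/
def SpecCNV : Prop :=
  ∀ (G ι : Type) [Group G] [Finite G] (H : Subgroup G)
    (W κ : Type) [AddCommGroup W] [DistribMulAction H W]
    (Z : ι → Type) [∀ i, AddCommGroup (Z i)] [∀ i, DistribMulAction H (Z i)]
    (cmp : ι ⊕ κ → AddSubgroup W) (B : ∀ i, Z i → W → W → ℂ)
    (F K : Subgroup G) (kap : G → ℂ) (c : Cfg H W Z), IsPair F H K kap → c.Valid cmp B →
    (∀ h : H, (PFix K kap (h : G) ↔ Fixes cmp B c.lam c.mu h)) →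
    ∃ d, IsDeg G d ∧ (∀ r, r.Prime → r ∣ K.relIndex F → r ∣ d) ∧
      ∀ r, r.Prime → c.Cov cmp B r → r ∣ d

/-- **RBF** [60, from SET, COR, PRC, CNV]: the final Spec of the block REP,
`Pool.Agent.Lib.MPbe1941.SpecREP`. -/
def SpecRBF : Prop := SpecREP

end Pool.Agent.Lib.MPbe1941.RB
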